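import Pool.Agent.Lib.MP_1211f9_al.WB.Z

/-!
Problem `MP_1211f9_al`, items 7 and 8 of the list (finite-dimensional bucolic complexes and weakly systolic complexes):
reduction of item 7 to item 8, and Q1 for all complexes of both items which are Gromov hyperbolic or have no 6-wheels.

A bucolic complex is determined by its 1-skeleton `X`; the 1-skeleta of bucolic complexes are the connected weakly
modular graphs (triangle condition `TC`, quadrangle condition `QC`) without induced `K_{2,3}`, `W_4`, `W_4^-` (Brešar,
Chalopin, Chepoi, Gologranc, Osajda), that is, opposite vertices of an induced square have no third common neighbour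
(`FC`). The 1-skeleta of weakly systolic complexes are those without induced squares (Chepoi, Osajda). Finite dimension
is used only in the form: no isometric cube of dimension `D + 1`, and in (2)(c) bounded cliques; in (1) and (2)(a)
infinite cliques (cells of infinite dimension) are allowed.

Outline. (1) Chepoi: a connected set of vertices, such that every vertex with two distinct neighbours in the set belongs
to the set, is gated. (2) LEMMA: if `v x w y` is an induced square then `x` and `y` are in different components of
the neighbourhood of `v`. Hence the classes of the relation on oriented edges generated by `(u,x) ~ (u,x')` (`x` and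
`x'` adjacent) and `(u,x) ~ (x,u)` are gated subgraphs without induced squares. (3) The edges whose end points have
different gates in such a subgraph `C` form one class of the relation generated by triangles and opposite edges of
squares; the components of the complement of the class (the sectors) are gated, parallel copies of `C` are isometric and
`d(x,y) = ∑ d(ρ_i x, ρ_i y)` (sum over the classes `i`, `ρ_i` the gate map to a copy). (4) The carriers of the
classes are gated; pairwise crossing classes give an isometric cube. (5) Let `G` be finitely generated and locally
elliptic. For two classes of an orbit which do not cross, `t i = j` implies that `t` maps the sector of `i` containing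
`j` to the sector of `j` containing `i` (otherwise `t` has linear growth). So there are no chains of three classes of
one orbit between two points, and at most `2 D |S|` classes separate `x` and `g x`. (6) With P. M. Neumann's lemma
there is a vertex `y` such that only finitely many classes, forming a finite `G`-invariant set, separate the points of
`G y` (the four pairs argument gives an invariant choice of sectors for all classes with infinite orbit). (7) The
subgroup `H` of finite index fixing these classes acts on the pieces, and `d(y, g y)` is the sum of the displacements on
the pieces. (8) Without 5- and 6-wheels the pieces are 7-systolic (`SevenSystolicAll`), without 5-wheels they are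
systolic. (9) Let `Y` be weakly bridged (a piece), `C` convex in `Y` (neighbourhoods of `C` need not be convex). A closest
point of `C` to `a`, closest to `q ∈ C` among these, is on a geodesic from `a` to `q` (`proj_min`); two points at the same
distance `j` from `C` and at distance at most `j` from each other have a common closest point in `C` (`common_proj`), and the
geodesics from both to it merge (`merge`). So the sets `P a` of the closest points of `C` to the points `a` satisfy: if `Y` is hyperbolic
then `P a` and `P (t a)` contain `P z` for a common point `z` further up; with bounded cliques `P a` has a bounded number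
of points, so some `P z` is invariant under the generators (pigeonhole), for an invariant convex set `C` far away. (10) Without
6-wheels a geodesic triangle has no level path of length three (`no_long`), and `Y` is hyperbolic with the constant `10`.
-/

set_option autoImplicit false

namespace Pool.Agent.Results.MP_1211f9_al.BucolicComplexes

open Pool.Agent.Lib.MP_1211f9_al Pool.Agent.Lib.MP_1211f9_al.BK Pool.Agent.Lib.MP_1211f9_al.WB

/-- Let a finitely generated group `G` act by automorphisms, locally elliptically, on a bucolic complex without isometric
cubes of dimension `D + 1`, given by its 1-skeleton `X`. Then (1) a subgroup `H` of finite index acts by automorphisms,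
locally elliptically, on finitely many gated subgraphs `C 0, .., C (k - 1)` of `X` without induced squares, and the
orbits of `G` on `X` are bounded if and only if the orbits of all these actions are bounded. (2) If `X`, or every
gated subgraph of `X` without induced squares, (a) has no induced 5-wheels and 6-wheels, or (b) has no induced
5-wheels, is Gromov hyperbolic and has no infinite cliques, or (c) has cliques of bounded size and is Gromov
hyperbolic or has no induced 6-wheels, then the orbits of `G` are bounded. -/
theorem result {V : Type*} (X : SimpleGraph V) (hX : X.Connected) (htc : TC X) (hqc : QC X)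
    (hfc : FC X) (D : ℕ)
    (hD : ¬ ∃ f : (Fin (D + 1) → Bool) → V, ∀ a b, X.dist (f a) (f b) = hammingDist a b)
    {G : Type*} [Group G] [MulAction G V] (hG : Group.FG G)
    (hact : ∀ (g : G) (u v : V), X.Adj u v → X.Adj (g • u) (g • v))
    (hell : ∀ g : G, ∃ (x : V) (R : ℕ), ∀ n : ℕ, X.dist x (g ^ n • x) ≤ R) :
    (∃ (H : Subgroup G) (k : ℕ) (C : Fin k → Set V) (act : ∀ j, MulAction H (C j)),
      H.FiniteIndex ∧ (∀ j, Gated X (C j) ∧ NoSqIn X (C j)) ∧
      (∀ (j : Fin k) (g : H) (u v : C j), X.Adj u v →
        X.Adj ((act j).toSMul.smul g u : C j) ((act j).toSMul.smul g v : C j)) ∧
      (∀ (j : Fin k) (g : H) (c : C j), ∃ R : ℕ, ∀ n : ℕ,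
        X.dist c ((act j).toSMul.smul (g ^ n) c : C j) ≤ R) ∧
      ((∀ x : V, ∃ R : ℕ, ∀ g : G, X.dist x (g • x) ≤ R) ↔
        ∀ (j : Fin k) (c : C j), ∃ R : ℕ, ∀ g : H,
          X.dist c ((act j).toSMul.smul g c : C j) ≤ R)) ∧
    (Good X ∨ (∀ C : Set V, Gated X C → NoSqIn X C → Good (X.induce C)) →
      ∀ x : V, ∃ R : ℕ, ∀ g : G, X.dist x (g • x) ≤ R) := by
  have hB : Bucolic X := ⟨hX, htc, hqc, hfc⟩
  have hD' : ∀ f : (Fin (D + 1) → Bool) → V, ¬ ∀ a b, X.dist (f a) (f b) = hammingDist a b :=
    fun f hf => hD ⟨f, hf⟩
  have hell' : ∀ (g : G) (x : V), ∃ R : ℕ, ∀ n : ℕ, X.dist x (g ^ n • x) ≤ R :=
    fun g x => ell_all hX hact hell g x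
  refine ⟨?_, fun h => main_good hB hD' hact hG hell' ?_⟩
  · obtain ⟨H, k, C, act, h1, h2, h3, h4, h5⟩ := structure_thm hB hD' hact hG hell'
    exact ⟨H, k, C, act, h1, h2, h3, h4, h5.symm⟩
  · rcases h with h | h
    · exact fun C hC _ => good_induce hX hC h
    · exact h

end Pool.Agent.Results.MP_1211f9_al.BucolicComplexes
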