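import Pool.Agent.Lib.MP_1211f9_al.E2

/-!
Problem `MP_1211f9_al`, item 4 of the list (Gromov hyperbolic graphs, uniformly locally finite), in
a stronger form: only the orbits of the group have to be uniformly locally finite.

Outline of the proof. Let `T` be a finite generating set and suppose that no element of `G` has linear
growth and that the orbits are unbounded. (1) For every finite subset `F` of `G` there is a point
`x F` which is moved by at most `12 k + 3` by the elements of `F` (`exists_small`). (2) The points
`x F` converge to a point at infinity, and there are points `y 0 = x0, y 1, y 2, ..` going up in this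
direction, such that the distance of `g • y i` to `x F` is `d(x0, x F) - i σ` up to a constant, for
every `g` and all large `F` (`exists_seq`). (3) Let `Reach i n v` be the set of the points of the orbit of
`y (i + n)` which are reached from a point `v` of the orbit of `y i` in `n` steps of length about `σ` through the
orbits of `y (i + 1), y (i + 2), ..`. By hyperbolicity its diameter is bounded, so it has
at most `N` elements, where `N` does not depend on `i` and `n`; and a point `v` moved by at most `K` by
all generators reaches points `z` which are also reached from `t • v`, for all generators `t`, and which
are moved by at most `K`. (4) Pigeonhole: `Reach z` is contained in the sets `Reach v` and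
`t • Reach v`, which have the same number of elements. So if `t • Reach v ≠ Reach v` then
`Reach z` is smaller than `Reach v`. After at most `N` steps we find a set `Reach w` which is
invariant under all generators, hence a finite orbit, and all orbits are bounded, a contradiction.
-/

set_option autoImplicit false

namespace Pool.Agent.Results.MP_1211f9_al.HyperbolicGraphs

open Pool.Agent.Lib.MP_1211f9_al

/-- The orbits of `G` are uniformly locally finite: for every `R` there is `N` such that the ball of
radius `R` around a vertex `x` contains at most `N` points of the orbit of `x`. -/
def UniformlyLocallyFiniteOrbits {V : Type*} (X : SimpleGraph V) (G : Type*) [Group G]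
    [MulAction G V] : Prop :=
  ∀ R : ℕ, ∃ N : ℕ, ∀ x : V, {y | y ∈ MulAction.orbit G x ∧ X.dist x y ≤ R}.Finite ∧
    {y | y ∈ MulAction.orbit G x ∧ X.dist x y ≤ R}.ncard ≤ N

/-- Let a finitely generated group `G` act by automorphisms on a connected Gromov hyperbolic graph `X`
such that the orbits are uniformly locally finite (for example `X` uniformly locally finite). Then
the orbits of `G` are bounded or some element `g` has linear growth: `d(x, gⁿ x) ≥ n` for some `x` and
all `n`. In particular a locally elliptic action is elliptic. -/
theorem result {V : Type*} (X : SimpleGraph V) (hX : X.Connected) (hyp : Hyperbolic X)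
    {G : Type*} [Group G] [MulAction G V] (hG : Group.FG G)
    (hact : ∀ (g : G) (u v : V), X.Adj u v → X.Adj (g • u) (g • v))
    (hlf : UniformlyLocallyFiniteOrbits X G) :
    (∀ x : V, ∃ R : ℕ, ∀ g : G, X.dist x (g • x) ≤ R) ∨
      ∃ (g : G) (x : V), ∀ n : ℕ, n ≤ X.dist x (g ^ n • x) := by
  obtain ⟨k, hk⟩ := hyp
  obtain ⟨T, hT⟩ := Group.fg_def.mp hG
  exact main_orbits hX hk hact hT hlf

end Pool.Agent.Results.MP_1211f9_al.HyperbolicGraphs
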