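import Pool.Agent.Lib.MP_1211f9_al.N2
import Pool.Agent.Lib.MP_1211f9_al.Z3

/-!
Problem `MP_1211f9_al`, item 6 of the list (systolic complexes, no bound on the dimension): Gromov hyperbolic
systolic complexes of any dimension, not necessarily locally finite.

A systolic complex is determined by its 1-skeleton, and the 1-skeleta of systolic complexes are the bridged
graphs, that is, the connected graphs without isometric cycles of length at least four (Chepoi 2000). We prove first
(`bridged_of_noIsometricCycle`; Soltan and Chepoi, Farber and Jamison) that the closed neighbourhoods of
convex sets are convex in such a graph.

Outline of the proof. Let `T` be a finite generating set and suppose that no element of `G` has linear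
growth and that the orbits are unbounded. (1) For every finite subset `F` of `G` there is a point
`x F` which is moved by at most `12 k + 3` by the elements of `F` (`exists_small`). (2) The set `Cset` of
the points `y` such that for every `g` the point `g • y` is, for all large `F`, by `m` closer to `x F` than the
base point `x0` is convex, `G`-invariant, not empty, and at distance at least `m` from `x0` (`exists_far`). Let
`lev v` be the distance to this set. (3) The shadow `Sh i v` of `v`, the set of the points of level `i` on the
geodesics from `v` to the convex set, is convex and has diameter at most `3 k + 1`. (4) THE DIVERGENCE
INEQUALITY (`diverge`): if `x` and `y` belong to a convex set of constant level `n + k`, and `p` and `q` are points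
of level `n` with `d(x, p) = d(y, q) = k`, `d(y, p) > k` and `d(x, q) > k`, then `d(p, q) + d(x, y) ≥ k + 2`. Hence
the shadows of two points of a shadow, far below, are NESTED (`Sh_nested`): one of them contains the other, although
the complex has infinite dimension. (5) Far up the shadows of the translates of a point by the generators meet
(`multi_meet`), and we get a point `w` such that the shadows of `w` and of `t • w` are nested for all generators `t`.
If `t` has finite order, or if the shadows are finite (no infinite clique), they are equal, so there is an
invariant bounded set, a contradiction. In general an ultrafilter makes the inclusion of shadows a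
left-invariant total preorder of `G`; if `G` has only the trivial one then again all shadows are equal.
-/

set_option autoImplicit false

namespace Pool.Agent.Results.MP_1211f9_al.HyperbolicSystolicAllDim

open Pool.Agent.Lib.MP_1211f9_al

/-- Let a group `G` generated by a finite set `T` act by automorphisms on a Gromov hyperbolic systolic complex of
any dimension, given by its 1-skeleton `X`: a connected graph without isometric cycles of length at least four.
Suppose that `X` has no infinite clique, or that the elements of `T` have finite order, or that `G` has no
nontrivial left-invariant total preorder (equivalently, `G` has no nontrivial left-orderable quotient). Then the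
orbits of `G` are bounded or some element `g` has linear growth: `d(x, gⁿ x) ≥ n` for some `x` and all `n`.
In particular every action of a finitely generated torsion group is elliptic. -/
theorem result {V : Type*} (X : SimpleGraph V) (hX : X.Connected) (hI : NoIsometricCycle X)
    (hyp : Hyperbolic X) {G : Type*} [Group G] [MulAction G V] (T : Finset G)
    (hT : Subgroup.closure (T : Set G) = ⊤)
    (hact : ∀ (g : G) (u v : V), X.Adj u v → X.Adj (g • u) (g • v))
    (h : (∀ S : Set V, X.IsClique S → S.Finite) ∨ (∀ t ∈ T, IsOfFinOrder t) ∨
      OnlyTrivialPreorders G) :
    (∀ x : V, ∃ R : ℕ, ∀ g : G, X.dist x (g • x) ≤ R) ∨
      ∃ (g : G) (x : V), ∀ n : ℕ, n ≤ X.dist x (g ^ n • x) := by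
  obtain ⟨k, hk⟩ := hyp
  refine main_all (bridged_of_noIsometricCycle hX hI) hk hact hT ?_
  rcases h with h | h | h
  · exact Or.inl fun t _ => Or.inr h
  · exact Or.inl fun t ht => Or.inl (h t ht)
  · exact Or.inr h

end Pool.Agent.Results.MP_1211f9_al.HyperbolicSystolicAllDim
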