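import Pool.Agent.Lib.MP_1211f9_al.N4
import Pool.Agent.Lib.MP_1211f9_al.Z3

/-!
Problem `MP_1211f9_al`, item 6 of the list (systolic complexes, no bound on the dimension): the full question Q1
for all 7-systolic complexes, of any dimension, locally infinite, infinite simplices allowed.

A systolic complex is determined by its 1-skeleton, and the 1-skeleta of systolic complexes are the bridged
graphs, that is, the connected graphs without isometric cycles of length at least four (Chepoi 2000). A systolic
complex is 7-systolic if and only if its 1-skeleton has no induced hexagon. We prove first
(`bridged_of_noIsometricCycle`; Soltan and Chepoi, Farber and Jamison) that the closed neighbourhoods of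
convex sets are convex in a bridged graph.

Outline of the proof. Let `lev v` be the distance of `v` to a convex set `C`, `Up v` the set of the
neighbours of `v` one level up, a clique, and `Sh i v` the shadow of `v`: the set of the points of level `i` on the
geodesics from `v` to `C`. (1) THE NESTING (`Up_nested`): if `v` and `w` are adjacent and of the same
level at least `2` then `Up v` contains `Up w` or conversely (otherwise there is an induced cycle of
length four, five or six). Hence the shadows are cliques, and the shadows of adjacent vertices of the same level are
nested. (2) The graph is hyperbolic (`fourPoint`, constant `26`). (3) If there is no element of linear growth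
and the orbits are unbounded then there is a nonempty convex invariant set `C` far away from the base point
(`Cset`), and a vertex `w` of level `4` which is moved by every generator at most to a neighbour (`multi_meet`).
(4) Call the neighbour `e` of `q`, of the same level, strong if `Sh 1 e` is not contained in `Sh 1 q`. Two strong
neighbours of `q` are equal or adjacent (`strong_adj`), and so are a strong neighbour of `q₁` and a strong neighbour
of `q₂` if `q₁` and `q₂` are adjacent and have the same shadow (`strong_adj_two`). (5) The orbit of `w` is a
connected graph `Y`. If the shadow `Sh 1 w` is not invariant under the generators then every vertex of
`Y` has a strong neighbour in `Y`. So a geodesic of `Y` cannot contain a valley: a run of vertices with the same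
shadow whose neighbours at both ends are strong (`run_lemma`: the distance of these two neighbours would be too
small). Hence the shadows grow and then decrease along a geodesic of `Y`, and the shadows of any two vertices of `Y`
are contained in the shadow of a third one (`common_bound`), which is a clique. So the orbit of `w` is bounded, a
contradiction; and if the shadow `Sh 1 w`, a clique, is invariant then the orbits are bounded as well.
-/

set_option autoImplicit false

namespace Pool.Agent.Results.MP_1211f9_al.SevenSystolicAll

open Pool.Agent.Lib.MP_1211f9_al

/-- Let a finitely generated group `G` act by automorphisms on a 7-systolic complex of any dimension, given by its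
1-skeleton `X`: a connected graph without isometric cycles of length at least four and without induced
hexagons. Then the orbits of `G` are bounded or some element `g` has linear growth: `d(x, gⁿ x) ≥ n` for
some `x` and all `n`. In particular every locally elliptic action is elliptic. -/
theorem result {V : Type*} (X : SimpleGraph V) (hX : X.Connected) (hI : NoIsometricCycle X)
    (hex : NoHexagon X) {G : Type*} [Group G] [MulAction G V] (hG : Group.FG G)
    (hact : ∀ (g : G) (u v : V), X.Adj u v → X.Adj (g • u) (g • v)) :
    (∀ x : V, ∃ R : ℕ, ∀ g : G, X.dist x (g • x) ≤ R) ∨
      ∃ (g : G) (x : V), ∀ n : ℕ, n ≤ X.dist x (g ^ n • x) := by
  obtain ⟨T, hT⟩ := Group.fg_def.mp hG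
  exact main_seven_all (bridged_of_noIsometricCycle hX hI) hex hact hT

end Pool.Agent.Results.MP_1211f9_al.SevenSystolicAll
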